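import Pool.Agent.Lib.MP_c59a20_lc.Bridge

/-!
`ABAB`-freeness of 3-uniform hypergraphs is decidable in deterministic polynomial time.
-/

namespace Pool.Agent.Results.MP_c59a20_lc.InP

open Pool.Agent.Lib.MP_c59a20_lc N68a2faeb

theorem result : ∃ d : List ℕ × List (List ℕ) → Bool, IsPolyTime d ∧
    ∀ (V : List ℕ) (E : List (List ℕ)), d (V, E) = true ↔ (ThreeUniform V E ∧ ABABFree V E) :=
  ⟨decider, decider_pt, fun V E => decider_iff (V, E)⟩

end Pool.Agent.Results.MP_c59a20_lc.InP
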